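import Mathlib

/-!
# Commutator laws on the solubilizer do not bound the nilpotency class

`G` is the group of order 336 generated by `(0 1 2 3 4 5 6 7)` and `(2 3 5)(4 6 7)` on eight points
(it is isomorphic to `PGL(2,7)`), and `x` is the first generator. The double cosets of `⟨x⟩` in `G`
are represented by `1`, the reflection `s`, and five elements each of which generates `G` together
with `x`. So the solubilizer of `x` is the dihedral group `⟨x, s⟩` of order 16, of class `3`, while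
`G` is not soluble.
-/

set_option autoImplicit false

namespace Pool.Agent.Results.MP_7555fa_al.AllWeights

open scoped commutatorElement

/-- The solubilizer of `x`: all `y` such that `⟨x, y⟩` is soluble. -/
def solubilizer {G : Type} [Group G] (x : G) : Set G :=
  {y | Group.IsSolvable (Subgroup.closure ({x, y} : Set G))}

/-- `[a, b] = a⁻¹ b⁻¹ a b`. -/
def comm {G : Type} [Group G] (a b : G) : G := a⁻¹ * b⁻¹ * a * b

/-- The left-normed commutator `[u 0, u 1, …, u n]`, of weight `n + 1`. -/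
def leftComm {G : Type} [Group G] (u : ℕ → G) : ℕ → G
  | 0 => u 0
  | n + 1 => comm (leftComm u n) (u (n + 1))

/-! ### Witnesses for insolubility -/

lemma comm_eq {G : Type} [Group G] (a b : G) : comm a b = ⁅a⁻¹, b⁻¹⁆ := by
  simp [comm, commutatorElement_def]

lemma witness_derived {K : Type} [Group K] {z g h : K}
    (hz : z = comm (g⁻¹ * z * g) (h⁻¹ * z * h)) (n : ℕ) : z ∈ derivedSeries K n := by
  induction n with
  | zero => simp
  | succ n ih =>
    have hn : (derivedSeries K n).Normal := derivedSeries_normal K n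
    rw [derivedSeries_succ, hz, comm_eq]
    apply Subgroup.commutator_mem_commutator
    · apply Subgroup.inv_mem
      have := hn.conj_mem z ih g⁻¹
      simpa using this
    · apply Subgroup.inv_mem
      have := hn.conj_mem z ih h⁻¹
      simpa using this

lemma witness_solvable {K : Type} [Group K] [Group.IsSolvable K] {z g h : K}
    (hz : z = comm (g⁻¹ * z * g) (h⁻¹ * z * h)) : z = 1 := by
  obtain ⟨n, hn⟩ := Group.IsSolvable.solvable (G := K)
  have := witness_derived hz n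
  rw [hn] at this
  simpa using this

lemma witness_lower {K : Type} [Group K] {z g h : K}
    (hz : z = comm (g⁻¹ * z * g) (h⁻¹ * z * h)) (n : ℕ) :
    z ∈ (⊤ : Subgroup K).lowerCentralSeries n := by
  induction n with
  | zero => simp
  | succ n ih =>
    have hn : ((⊤ : Subgroup K).lowerCentralSeries n).Normal := by infer_instance
    rw [Subgroup.lowerCentralSeries_succ, hz, comm_eq]
    apply Subgroup.commutator_mem_commutator
    · apply Subgroup.inv_mem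
      have := hn.conj_mem z ih g⁻¹
      simpa using this
    · simp

/-! ### The permutations -/

/-- The 8-cycle. -/
def X : Equiv.Perm (Fin 8) :=
  ⟨![1, 2, 3, 4, 5, 6, 7, 0], ![7, 0, 1, 2, 3, 4, 5, 6], by decide, by decide⟩

/-- The reflection. -/
def S : Equiv.Perm (Fin 8) :=
  ⟨![0, 7, 6, 5, 4, 3, 2, 1], ![0, 7, 6, 5, 4, 3, 2, 1], by decide, by decide⟩

/-- The second generator. -/
def T : Equiv.Perm (Fin 8) :=
  ⟨![0, 1, 3, 5, 6, 2, 7, 4], ![0, 1, 5, 2, 7, 3, 4, 6], by decide, by decide⟩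

/-- `(0, 1, 4, 6, 5, 7, 2, 3)` -/
def R1 : Equiv.Perm (Fin 8) :=
  ⟨![0, 1, 4, 6, 5, 7, 2, 3], ![0, 1, 6, 7, 2, 4, 3, 5], by decide, by decide⟩

/-- `(0, 1, 7, 4, 3, 6, 5, 2)` -/
def R2 : Equiv.Perm (Fin 8) :=
  ⟨![0, 1, 7, 4, 3, 6, 5, 2], ![0, 1, 7, 4, 3, 6, 5, 2], by decide, by decide⟩

/-- `(0, 2, 6, 4, 7, 5, 1, 3)` -/
def R3 : Equiv.Perm (Fin 8) :=
  ⟨![0, 2, 6, 4, 7, 5, 1, 3], ![0, 6, 1, 7, 3, 5, 2, 4], by decide, by decide⟩

/-- `(0, 3, 6, 2, 1, 7, 5, 4)` -/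
def R4 : Equiv.Perm (Fin 8) :=
  ⟨![0, 3, 6, 2, 1, 7, 5, 4], ![0, 4, 3, 1, 7, 6, 2, 5], by decide, by decide⟩

/-- Representatives of the double cosets of `⟨X⟩`. -/
def R : Fin 7 → Equiv.Perm (Fin 8) := ![1, S, T, R1, R2, R3, R4]

/-- Multiplication table. -/
def tab : Fin 7 → Fin 8 → ℕ × Fin 7 × ℕ :=
  ![![(0, 2, 0), (1, 2, 0), (2, 2, 0), (3, 2, 0), (4, 2, 0), (5, 2, 0), (6, 2, 0), (7, 2, 0)],
    ![(6, 6, 3), (5, 6, 3), (4, 6, 3), (3, 6, 3), (2, 6, 3), (1, 6, 3), (0, 6, 3), (7, 6, 3)],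
    ![(3, 2, 3), (4, 3, 4), (2, 5, 6), (0, 0, 5), (1, 5, 5), (7, 3, 7), (5, 2, 5), (0, 6, 7)],
    ![(6, 3, 6), (2, 3, 5), (1, 2, 2), (0, 4, 5), (5, 5, 0), (3, 5, 3), (2, 4, 0), (4, 2, 6)],
    ![(0, 3, 0), (2, 5, 4), (4, 5, 7), (6, 3, 3), (0, 6, 1), (2, 4, 3), (6, 4, 2), (3, 6, 5)],
    ![(7, 2, 1), (6, 2, 7), (4, 4, 7), (3, 3, 1), (6, 6, 4), (7, 6, 2), (5, 3, 2), (6, 4, 6)],
    ![(5, 4, 4), (3, 6, 0), (0, 2, 4), (5, 6, 6), (0, 4, 1), (1, 5, 2), (0, 1, 3), (2, 5, 1)]]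

lemma tab_spec : ∀ (m : Fin 7) (j : Fin 8),
    R m * X ^ (j : ℕ) * T = X ^ (tab m j).1 * R (tab m j).2.1 * X ^ (tab m j).2.2 := by
  decide +kernel

lemma X8 : X ^ 8 = 1 := by decide +kernel
lemma T3 : T ^ 3 = 1 := by decide +kernel

/-- The group, a subgroup of the symmetric group of degree 8. -/
abbrev GG : Subgroup (Equiv.Perm (Fin 8)) := Subgroup.closure {X, T}

lemma X_mem : X ∈ GG := Subgroup.subset_closure (by simp)
lemma T_mem : T ∈ GG := Subgroup.subset_closure (by simp)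

lemma X_pow_mod (j : ℕ) : X ^ j = X ^ (j % 8) := by
  conv_lhs => rw [← Nat.div_add_mod j 8, pow_add, pow_mul, X8, one_pow, one_mul]

lemma normal_form {g : Equiv.Perm (Fin 8)} (hg : g ∈ GG) :
    ∃ (i : ℕ) (m : Fin 7) (j : ℕ), g = X ^ i * R m * X ^ j := by
  have stepX : ∀ a : Equiv.Perm (Fin 8), (∃ (i : ℕ) (m : Fin 7) (j : ℕ), a = X ^ i * R m * X ^ j) →
      ∃ (i : ℕ) (m : Fin 7) (j : ℕ), a * X = X ^ i * R m * X ^ j := by
    rintro a ⟨i, m, j, rfl⟩
    exact ⟨i, m, j + 1, by rw [pow_succ]; simp only [mul_assoc]⟩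
  have stepT : ∀ a : Equiv.Perm (Fin 8), (∃ (i : ℕ) (m : Fin 7) (j : ℕ), a = X ^ i * R m * X ^ j) →
      ∃ (i : ℕ) (m : Fin 7) (j : ℕ), a * T = X ^ i * R m * X ^ j := by
    rintro a ⟨i, m, j, rfl⟩
    have h := tab_spec m ⟨j % 8, Nat.mod_lt _ (by norm_num)⟩
    simp only at h
    rw [← X_pow_mod] at h
    refine ⟨i + (tab m ⟨j % 8, Nat.mod_lt _ (by norm_num)⟩).1,
      (tab m ⟨j % 8, Nat.mod_lt _ (by norm_num)⟩).2.1,
      (tab m ⟨j % 8, Nat.mod_lt _ (by norm_num)⟩).2.2, ?_⟩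
    rw [pow_add]
    calc X ^ i * R m * X ^ j * T = X ^ i * (R m * X ^ j * T) := by simp only [mul_assoc]
      _ = _ := by rw [h]; simp only [mul_assoc]
  have hX : X⁻¹ = X * X * X * X * X * X * X := by decide +kernel
  have hT : T⁻¹ = T * T := by decide +kernel
  induction hg using Subgroup.closure_induction_right with
  | one => exact ⟨0, 0, 0, by simp [R]⟩
  | mul_right a y hy h ih =>
    rcases h with rfl | h
    · exact stepX _ ih
    · rw [Set.mem_singleton_iff] at h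
      subst h
      exact stepT _ ih
  | mul_inv_cancel a y hy h ih =>
    rcases h with rfl | h
    · rw [hX]
      simp only [← mul_assoc]
      exact stepX _ (stepX _ (stepX _ (stepX _ (stepX _ (stepX _ (stepX _ ih))))))
    · rw [Set.mem_singleton_iff] at h
      subst h
      rw [hT, ← mul_assoc]
      exact stepT _ (stepT _ ih)

/-- The first generator. -/
def x₀ : GG := ⟨X, X_mem⟩

/-- The second generator. -/
def t₀ : GG := ⟨T, T_mem⟩

lemma witness_eq :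
    comm x₀ t₀ = comm ((x₀ * t₀ ^ 2)⁻¹ * comm x₀ t₀ * (x₀ * t₀ ^ 2))
      ((x₀ ^ 3)⁻¹ * comm x₀ t₀ * (x₀ ^ 3)) := by
  apply Subtype.ext
  show comm X T = comm ((X * T ^ 2)⁻¹ * comm X T * (X * T ^ 2)) ((X ^ 3)⁻¹ * comm X T * (X ^ 3))
  decide +kernel

lemma witness_ne : comm x₀ t₀ ≠ 1 := by
  intro h
  have h2 : comm X T = 1 := congrArg Subtype.val h
  revert h2
  decide +kernel

lemma not_solvable_of_mem {K : Subgroup GG} (hx : x₀ ∈ K) (ht : t₀ ∈ K) :
    ¬ Group.IsSolvable K := by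
  intro hs
  let x : K := ⟨x₀, hx⟩
  let t : K := ⟨t₀, ht⟩
  have h1 : comm x t = comm ((x * t ^ 2)⁻¹ * comm x t * (x * t ^ 2))
      ((x ^ 3)⁻¹ * comm x t * (x ^ 3)) := Subtype.ext witness_eq
  have h2 := witness_solvable h1
  exact witness_ne (congrArg Subtype.val h2)

lemma T_of_R (K : Subgroup GG) (hx : x₀ ∈ K) (m : Fin 7) (hm : 2 ≤ (m : ℕ)) (r : GG)
    (hr : r ∈ K) (hrm : r.1 = R m) : t₀ ∈ K := by
  have key : ∀ (a b c : ℕ) (r : GG), r ∈ K → x₀ ^ a * r * x₀ ^ b * r * x₀ ^ c ∈ K := by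
    intro a b c r hr
    exact K.mul_mem (K.mul_mem (K.mul_mem (K.mul_mem (K.pow_mem hx _) hr) (K.pow_mem hx _)) hr)
      (K.pow_mem hx _)
  have eq1 : X ^ 5 * R1 * X ^ 0 * R1 * X ^ 5 = T := by decide +kernel
  have eq2 : X ^ 2 * R2 * X ^ 6 * R2 * X ^ 2 = T := by decide +kernel
  have eq3 : X ^ 6 * R3 * X ^ 3 * R3 * X ^ 2 = R1 := by decide +kernel
  have eq4 : X ^ 1 * R4 * X ^ 5 * R4 * X ^ 0 = T := by decide +kernel
  have k1 : ∀ r : GG, r ∈ K → r.1 = R1 → t₀ ∈ K := by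
    intro r hr h1
    have : x₀ ^ 5 * r * x₀ ^ 0 * r * x₀ ^ 5 = t₀ := by
      apply Subtype.ext
      show X ^ 5 * r.1 * X ^ 0 * r.1 * X ^ 5 = T
      rw [h1, eq1]
    rw [← this]
    exact key _ _ _ r hr
  have hm' : m = 2 ∨ m = 3 ∨ m = 4 ∨ m = 5 ∨ m = 6 := by
    have : ∀ m : Fin 7, 2 ≤ (m : ℕ) → m = 2 ∨ m = 3 ∨ m = 4 ∨ m = 5 ∨ m = 6 := by decide
    exact this m hm
  rcases hm' with rfl | rfl | rfl | rfl | rfl
  · have : r = t₀ := Subtype.ext hrm
    rw [← this]; exact hr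
  · exact k1 r hr hrm
  · have h1 : r.1 = R2 := hrm
    have : x₀ ^ 2 * r * x₀ ^ 6 * r * x₀ ^ 2 = t₀ := by
      apply Subtype.ext
      show X ^ 2 * r.1 * X ^ 6 * r.1 * X ^ 2 = T
      rw [h1, eq2]
    rw [← this]
    exact key _ _ _ r hr
  · have h1 : r.1 = R3 := hrm
    refine k1 (x₀ ^ 6 * r * x₀ ^ 3 * r * x₀ ^ 2) (key _ _ _ r hr) ?_
    show X ^ 6 * r.1 * X ^ 3 * r.1 * X ^ 2 = R1
    rw [h1, eq3]
  · have h1 : r.1 = R4 := hrm
    have : x₀ ^ 1 * r * x₀ ^ 5 * r * x₀ ^ 0 = t₀ := by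
      apply Subtype.ext
      show X ^ 1 * r.1 * X ^ 5 * r.1 * X ^ 0 = T
      rw [h1, eq4]
    rw [← this]
    exact key _ _ _ r hr

/-- The dihedral group of order 16. -/
def InD (g : Equiv.Perm (Fin 8)) : Prop := ∃ (i : Fin 8) (b : Bool), g = X ^ (i : ℕ) * S ^ b.toNat

lemma inD_of_normal (i j : ℕ) (m : Fin 7) (hm : ¬ 2 ≤ (m : ℕ)) : InD (X ^ i * R m * X ^ j) := by
  have hm' : m = 0 ∨ m = 1 := by
    have : ∀ m : Fin 7, ¬ 2 ≤ (m : ℕ) → m = 0 ∨ m = 1 := by decide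
    exact this m hm
  rcases hm' with rfl | rfl
  · refine ⟨⟨(i + j) % 8, Nat.mod_lt _ (by norm_num)⟩, false, ?_⟩
    simp only [Bool.toNat_false, pow_zero, mul_one]
    rw [← X_pow_mod, pow_add]
    simp [R]
  · refine ⟨⟨(i + 7 * j) % 8, Nat.mod_lt _ (by norm_num)⟩, true, ?_⟩
    simp only [Bool.toNat_true, pow_one]
    rw [← X_pow_mod, pow_add, pow_mul]
    have h1 : S * X = X ^ 7 * S := by decide +kernel
    have h2 : ∀ j : ℕ, S * X ^ j = (X ^ 7) ^ j * S := by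
      intro j
      induction j with
      | zero => simp
      | succ j ih => rw [pow_succ, ← mul_assoc, ih, mul_assoc, h1, ← mul_assoc, ← pow_succ]
    have h3 : R 1 = S := rfl
    rw [h3, mul_assoc, h2, mul_assoc]

lemma inD_of_solubilizer {y : GG} (hy : y ∈ solubilizer x₀) : InD y.1 := by
  obtain ⟨i, m, j, h⟩ := normal_form y.2
  by_cases hm : 2 ≤ (m : ℕ)
  · exfalso
    have hxK : x₀ ∈ Subgroup.closure ({x₀, y} : Set GG) := Subgroup.subset_closure (by simp)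
    have hyK : y ∈ Subgroup.closure ({x₀, y} : Set GG) := Subgroup.subset_closure (by simp)
    have ht := T_of_R _ hxK m hm ((x₀ ^ i)⁻¹ * y * (x₀ ^ j)⁻¹)
      (Subgroup.mul_mem _ (Subgroup.mul_mem _ (Subgroup.inv_mem _ (Subgroup.pow_mem _ hxK _)) hyK)
        (Subgroup.inv_mem _ (Subgroup.pow_mem _ hxK _))) (by
        show (X ^ i)⁻¹ * y.1 * (X ^ j)⁻¹ = R m
        rw [h]
        group)
    exact not_solvable_of_mem hxK ht hy
  · rw [h]
    exact inD_of_normal i j m hm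

lemma dih1 : ∀ (i j : Fin 8) (b c : Bool), ∃ k : Fin 4,
    comm (X ^ (i : ℕ) * S ^ b.toNat) (X ^ (j : ℕ) * S ^ c.toNat) = X ^ (2 * (k : ℕ)) := by
  decide +kernel

lemma dih2 : ∀ (i : Fin 4) (j : Fin 8) (c : Bool), ∃ k : Fin 2,
    comm (X ^ (2 * (i : ℕ))) (X ^ (j : ℕ) * S ^ c.toNat) = X ^ (4 * (k : ℕ)) := by
  decide +kernel

lemma dih3 : ∀ (i : Fin 2) (j : Fin 8) (c : Bool),
    comm (X ^ (4 * (i : ℕ))) (X ^ (j : ℕ) * S ^ c.toNat) = 1 := by
  decide +kernel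

lemma leftComm_val (u : ℕ → GG) (n : ℕ) : (leftComm u n).1 = leftComm (fun i => (u i).1) n := by
  induction n with
  | zero => rfl
  | succ n ih =>
    show (comm (leftComm u n) (u (n + 1))).1 = comm (leftComm (fun i => (u i).1) n) (u (n + 1)).1
    rw [← ih]
    rfl

/-- There are a finite group `G` (of order 336) and `x ∈ G` such that for every `k ≥ 4` all
left-normed commutators of weight `k` with entries in the solubilizer of `x` are trivial, but
`γ_k(G) ≠ 1`. (`lowerCentralSeries (k - 1)` is `γ_k(G)`, and `leftComm u (k - 1)` is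
`[u 0, …, u (k - 1)]`.) -/
theorem result : ∃ (G : Type) (_ : Group G) (_ : Finite G) (x : G), ∀ k : ℕ, 4 ≤ k →
    (∀ u : ℕ → G, (∀ i, i < k → u i ∈ solubilizer x) → leftComm u (k - 1) = 1) ∧
    (⊤ : Subgroup G).lowerCentralSeries (k - 1) ≠ ⊥ := by
  refine ⟨GG, inferInstance, inferInstance, x₀, ?_⟩
  intro k hk
  constructor
  · intro u hu
    apply Subtype.ext
    rw [leftComm_val]
    show _ = (1 : Equiv.Perm (Fin 8))
    have hD : ∀ i, i < k → InD (u i).1 := fun i hi => inD_of_solubilizer (hu i hi)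
    have h1 : ∃ k : Fin 4, leftComm (fun i => (u i).1) 1 = X ^ (2 * (k : ℕ)) := by
      obtain ⟨i, b, hi⟩ := hD 0 (by omega)
      obtain ⟨j, c, hj⟩ := hD 1 (by omega)
      show ∃ k : Fin 4, comm (u 0).1 (u 1).1 = X ^ (2 * (k : ℕ))
      rw [hi, hj]
      exact dih1 i j b c
    have h2 : ∃ k : Fin 2, leftComm (fun i => (u i).1) 2 = X ^ (4 * (k : ℕ)) := by
      obtain ⟨i, hi⟩ := h1
      obtain ⟨j, c, hj⟩ := hD 2 (by omega)
      show ∃ k : Fin 2, comm (leftComm (fun i => (u i).1) 1) (u 2).1 = X ^ (4 * (k : ℕ))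
      rw [hi, hj]
      exact dih2 i j c
    have h3 : leftComm (fun i => (u i).1) 3 = 1 := by
      obtain ⟨i, hi⟩ := h2
      obtain ⟨j, c, hj⟩ := hD 3 (by omega)
      show comm (leftComm (fun i => (u i).1) 2) (u 3).1 = 1
      rw [hi, hj]
      exact dih3 i j c
    obtain ⟨n, hn⟩ : ∃ n, k - 1 = 3 + n := ⟨k - 4, by omega⟩
    rw [hn]
    clear hn
    induction n with
    | zero => exact h3
    | succ n ih =>
      show comm (leftComm (fun i => (u i).1) (3 + n)) (u (3 + n + 1)).1 = 1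
      rw [ih]
      simp [comm]
  · intro h
    have h1 := witness_lower witness_eq (k - 1)
    rw [h, Subgroup.mem_bot] at h1
    exact witness_ne h1

end Pool.Agent.Results.MP_7555fa_al.AllWeights
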